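import Pool.Agent.W386.M.Final

set_option autoImplicit false

/-!
# The monoidal virtual surjection conjecture

Let `S ≤ L₁ × ⋯ × L_m` be a finitely presented subgroup of a direct product of finitely generated
groups of type `FP_n` (`2 ≤ n ≤ m`) and `χ` a character of `S` with `p_J(S_χ) = p_J(S)` for all
`J` with `n` elements. If the full projections of `S` virtually surject to `n`-tuples (for
non-abelian limit groups `L_i` and `S` subdirect of type `FP_n` this is a theorem of Kochloukova),
then `[χ] ∈ Σⁿ(S)`.
-/

namespace Pool.Agent.Results.MP_b1a3a4_al.MonoidalVirtualSurjection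

open Pool.Agent.W386.MD

theorem result {m n : ℕ} (hn : 2 ≤ n) (hnm : n ≤ m) (L : Fin m → Type) [∀ i, Group (L i)]
    (hfg : ∀ i, Group.FG (L i)) (hL : ∀ i, TypeFP n (L i))
    (S : Subgroup (∀ i, L i)) (hS : Group.IsFinitelyPresented S) (hK : VirtSurj n S)
    (χ : S →* Multiplicative ℝ) (hχ : χ ≠ 1) (h : SameProj n S χ) :
    Sigma n χ :=
  final hn hnm L hfg hL S hS hK χ hχ h

end Pool.Agent.Results.MP_b1a3a4_al.MonoidalVirtualSurjection
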